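import Pool.Agent.Lib.MP_0e0027_nt.Ex.StmtsW

/-!
W1: additive Hilbert 90 with multiplicities for a finite field over its prime field.
-/

set_option autoImplicit false

open Finset Polynomial

namespace Pool.Agent.Lib.MP_0e0027_nt.Ex

theorem stW1 : StW1 := by
  intro p _ F _ _ _ _ w
  classical
  have hp : p.Prime := Fact.out
  have : Module.Finite (ZMod p) F := Module.Finite.of_finite
  let φ : F →ₗ[ZMod p] F := (FiniteField.frobeniusAlgHom (ZMod p) F).toLinearMap - LinearMap.id
  have hφ : ∀ y, φ y = y ^ p - y := by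
    intro y
    simp [φ, FiniteField.frobeniusAlgHom_apply, ZMod.card]
  let τ : F →ₗ[ZMod p] ZMod p := Algebra.trace (ZMod p) F
  have hτ : Function.Surjective τ := Algebra.trace_surjective (ZMod p) F
  -- the kernel of `φ` has at most `p` elements
  have hker : Fintype.card (LinearMap.ker φ) ≤ p := by
    have h := card_le_degree_of_subset_roots (R := F) (p := X ^ p - X)
      (Z := univ.filter (fun y : F ↦ y ^ p - y = 0)) (by
        intro y hy
        rw [Finset.mem_val, Finset.mem_filter] at hy
        rw [mem_roots (FiniteField.X_pow_card_sub_X_ne_zero F hp.one_lt)]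
        simpa using hy.2)
    rw [FiniteField.X_pow_card_sub_X_natDegree_eq F hp.one_lt] at h
    refine le_trans (le_of_eq ?_) h
    rw [Fintype.card_subtype]
    congr 1
    ext y
    simp [LinearMap.mem_ker, hφ]
  have hcardk : Fintype.card (LinearMap.ker φ) =
      p ^ Module.finrank (ZMod p) (LinearMap.ker φ) := by
    rw [Module.card_eq_pow_finrank (K := ZMod p), ZMod.card]
  have hk1 : Module.finrank (ZMod p) (LinearMap.ker φ) ≤ 1 := by
    rw [hcardk] at hker
    have : p ^ Module.finrank (ZMod p) (LinearMap.ker φ) ≤ p ^ 1 := by simpa using hker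
    exact (Nat.pow_le_pow_iff_right hp.one_lt).1 this
  have hrn := LinearMap.finrank_range_add_finrank_ker φ
  have hrt := LinearMap.finrank_range_add_finrank_ker τ
  have hrt1 : Module.finrank (ZMod p) (LinearMap.range τ) = 1 := by
    rw [LinearMap.range_eq_top.2 hτ, finrank_top, Module.finrank_self]
  have hle : LinearMap.range φ ≤ LinearMap.ker τ := by
    rintro _ ⟨y, rfl⟩
    rw [LinearMap.mem_ker]
    show τ (φ y) = 0
    have h1 : τ (y ^ p) = τ y := by
      have h2 := Algebra.trace_eq_of_algEquiv
        (FiniteField.frobeniusAlgEquivOfAlgebraic (ZMod p) F) y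
      have h3 : (FiniteField.frobeniusAlgEquivOfAlgebraic (ZMod p) F) y = y ^ p := by
        rw [FiniteField.coe_frobeniusAlgEquivOfAlgebraic]
        simp [ZMod.card]
      rw [h3] at h2
      exact h2
    rw [hφ, map_sub, h1, sub_self]
  have hle' := Submodule.finrank_mono hle
  have hkr1 : Module.finrank (ZMod p) (LinearMap.ker φ) = 1 := by omega
  have heq : LinearMap.range φ = LinearMap.ker τ :=
    Submodule.eq_of_le_of_finrank_eq hle (by omega)
  have hcp : Fintype.card (LinearMap.ker φ) = p := by rw [hcardk, hkr1, pow_one]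
  by_cases hw : Algebra.trace (ZMod p) F w = 0
  · rw [if_pos hw]
    have hmem : w ∈ LinearMap.range φ := by
      rw [heq, LinearMap.mem_ker]; exact hw
    obtain ⟨y0, hy0⟩ := hmem
    refine Eq.trans (Eq.symm ?_) (Finset.card_univ.trans hcp)
    refine Finset.card_bij (fun (k : LinearMap.ker φ) _ ↦ y0 + (k : F)) ?_ ?_ ?_
    · intro k _
      rw [Finset.mem_filter]
      refine ⟨Finset.mem_univ _, ?_⟩
      rw [← hφ, map_add, hy0, LinearMap.mem_ker.1 k.2, add_zero]
    · intro k _ k' _ h
      exact Subtype.ext (add_left_cancel h)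
    · intro y hy
      rw [Finset.mem_filter] at hy
      refine ⟨⟨y - y0, ?_⟩, Finset.mem_univ _, ?_⟩
      · rw [LinearMap.mem_ker, map_sub, hy0, hφ, hy.2, sub_self]
      · simp
  · rw [if_neg hw, Finset.card_eq_zero, Finset.filter_eq_empty_iff]
    intro y _ hy
    apply hw
    have : w ∈ LinearMap.ker τ := hle ⟨y, by rw [hφ, hy]⟩
    exact LinearMap.mem_ker.1 this

end Pool.Agent.Lib.MP_0e0027_nt.Ex
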