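import Pool.Agent.Lib.MP_0e0027_nt.Ex.StmtsW

/-!
W2: the point count in Stepanov's method.
-/

set_option autoImplicit false

open Finset Polynomial

namespace Pool.Agent.Lib.MP_0e0027_nt.Ex

namespace W2

/-- the polynomial `Δ` -/
noncomputable def DeltaP {F : Type} [Field F] (p : ℕ) (a c : F) : F[X] :=
  (X ^ p - X + C c) ^ 2 - C (4 * a)

theorem natDegree_DeltaP {F : Type} [Field F] (p : ℕ) (hp : 3 ≤ p) (a c : F) :
    (DeltaP p a c).natDegree ≤ 2 * p := by
  unfold DeltaP
  refine (natDegree_sub_le _ _).trans (max_le ?_ ?_)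
  · refine natDegree_pow_le_of_le 2 ?_
    refine (natDegree_add_le _ _).trans (max_le ?_ ?_)
    · refine (natDegree_sub_le _ _).trans (max_le ?_ ?_)
      · exact natDegree_X_pow_le _
      · rw [natDegree_X]; omega
    · rw [natDegree_C]; omega
  · rw [natDegree_C]; omega

theorem eval_DeltaP {F : Type} [Field F] (p : ℕ) (a c y : F) :
    (DeltaP p a c).eval y = Dy p a c y := by
  unfold DeltaP Dy
  simp

end W2

open W2 in
theorem stW2 (h1 : StW2a) (h2 : StW2b) : StW2 := by
  intro p _ F _ _ _ _ μ a c hp hμ hcard ha hc S hS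
  haveI : CharP F p := charP_of_injective_algebraMap (algebraMap (ZMod p) F).injective p
  have hpp : p.Prime := Fact.out
  have hpo : Odd p := hpp.odd_of_ne_two (by omega)
  set Q := p ^ μ with hQ
  have hQodd : Odd Q := hpo.pow
  have hQp : p ≤ (Q - 1) / 2 := by
    have : 9 * p ≤ Q := by
      calc 9 * p ≤ p ^ 2 * p := Nat.mul_le_mul_right _ (by nlinarith)
        _ = p ^ 3 := by ring
        _ ≤ p ^ μ := Nat.pow_le_pow_right (by omega) hμ
    omega
  have hQ2 : p ^ (2 * μ) = Q ^ 2 := by rw [hQ, ← pow_mul, mul_comm]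
  obtain ⟨H, hH⟩ : ∃ H, Q = 2 * H + 1 := hQodd
  have hH2 : (Q - 1) / 2 = H := by omega
  have hQ1 : Q - 1 = 2 * H := by omega
  set D : F[X] := DeltaP p a c ^ H with hD
  have hDdeg : D.natDegree ≤ p * (Q - 1) := by
    calc D.natDegree ≤ H * (2 * p) := natDegree_pow_le_of_le H (natDegree_DeltaP p hp a c)
      _ = p * (Q - 1) := by rw [hQ1]; ring
  obtain ⟨ν, ν', hne, hν, hν', hid⟩ := h1 p F μ D hp hμ hcard hDdeg
  have hnz := h2 p F μ a c hp hμ ha hc ν ν' hne hν hν'
  rw [← hQ, hH2] at hν hν' hid hnz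
  have hnz' : (∑ j ∈ range (H + p + 1), ν j * X ^ (j * Q)) +
      D * (∑ j ∈ range (H + p + 1), ν' j * X ^ (j * Q)) ≠ 0 := hnz
  set h : F[X] := (∑ j ∈ range (H + p + 1), ν j * X ^ (j * Q)) +
      D * (∑ j ∈ range (H + p + 1), ν' j * X ^ (j * Q)) with hh
  have hsum : ∀ (f : ℕ → F[X]) (l : ℕ), (∀ j, (f j).natDegree ≤ l) →
      (∑ j ∈ range (H + p + 1), f j * X ^ (j * Q)).natDegree ≤ l + (H + p) * Q := by
    intro f l hf
    refine natDegree_sum_le_of_forall_le _ _ (fun j hj ↦ ?_)
    rw [Finset.mem_range] at hj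
    refine natDegree_mul_le.trans ?_
    rw [natDegree_X_pow]
    exact Nat.add_le_add (hf j) (Nat.mul_le_mul_right _ (by omega))
  have hdeg : h.natDegree ≤ 2 * H * p + H + (H + p) * Q := by
    refine (natDegree_add_le _ _).trans (max_le ?_ ?_)
    · refine (hsum ν _ hν).trans ?_
      have : H - p ≤ 2 * H * p + H := by
        have := Nat.zero_le (2 * H * p)
        omega
      omega
    · refine natDegree_mul_le.trans ?_
      have e1 := hsum ν' _ hν'
      have e2 : D.natDegree ≤ 2 * H * p := by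
        rw [hQ1] at hDdeg
        calc D.natDegree ≤ p * (2 * H) := hDdeg
          _ = 2 * H * p := by ring
      omega
  have hroot : ∀ y ∈ S, h.eval y = 0 := by
    intro y hy
    obtain ⟨hy0, s, hs⟩ := hS y hy
    have hyq : y ^ (Q * Q) = y := by
      have := FiniteField.pow_card y
      rw [hcard, hQ2, sq] at this
      exact this
    have hD0 : D.eval y ≠ 0 := by
      rw [hD, eval_pow, eval_DeltaP]
      exact pow_ne_zero _ hy0
    have hDQ : D.eval y * (D.eval y) ^ Q = 1 := by
      rw [← pow_succ', hD, eval_pow, eval_DeltaP, ← pow_mul, hs, ← sq, ← pow_mul]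
      have e1 : 2 * (H * (Q + 1)) = Fintype.card F - 1 := by
        rw [hcard, hQ2, hH]
        have : (2 * H + 1) ^ 2 = 2 * (H * (2 * H + 1 + 1)) + 1 := by ring
        omega
      rw [e1]
      apply FiniteField.pow_card_sub_one_eq_one
      rintro rfl
      apply hy0
      rw [hs, mul_zero]
    have hid' := congrArg (Polynomial.eval y) hid
    rw [eval_add, eval_mul, eval_finset_sum, eval_finset_sum, eval_zero] at hid'
    simp only [eval_mul, eval_pow, eval_X] at hid'
    have hfr : (h.eval y) ^ Q = (∑ j ∈ range (H + p + 1), (ν j).eval y ^ Q * y ^ j) +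
        (D.eval y) ^ Q * (∑ j ∈ range (H + p + 1), (ν' j).eval y ^ Q * y ^ j) := by
      have key : ∀ f : ℕ → F[X], (∑ j ∈ range (H + p + 1), (f j).eval y * y ^ (j * Q)) ^ Q =
          ∑ j ∈ range (H + p + 1), (f j).eval y ^ Q * y ^ j := by
        intro f
        rw [hQ, sum_pow_char_pow]
        refine sum_congr rfl (fun j _ ↦ ?_)
        rw [← hQ, mul_pow, ← pow_mul, mul_assoc, mul_comm j (Q * Q), pow_mul, hyq]
      rw [hh, eval_add, eval_mul, eval_finset_sum, eval_finset_sum]
      simp only [eval_mul, eval_pow, eval_X]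
      rw [← key ν, ← key ν', ← mul_pow, hQ, add_pow_char_pow]
    have h0 : (h.eval y) ^ Q = 0 := by
      have e : D.eval y * (h.eval y) ^ Q = 0 := by
        rw [hfr, mul_add, ← mul_assoc, hDQ, one_mul]
        exact hid'
      rcases mul_eq_zero.1 e with h | h
      · exact absurd h hD0
      · exact h
    exact pow_eq_zero_iff (by omega) |>.1 h0
  have hcardS : S.card ≤ h.natDegree := by
    have hsub : S ⊆ h.roots.toFinset := by
      intro y hy
      rw [Multiset.mem_toFinset, mem_roots hnz']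
      exact hroot y hy
    calc S.card ≤ h.roots.toFinset.card := card_le_card hsub
      _ ≤ Multiset.card h.roots := Multiset.toFinset_card_le _
      _ ≤ h.natDegree := card_roots' h
  have hfin : S.card ≤ 2 * H * p + H + (H + p) * Q := hcardS.trans hdeg
  rw [hQ2, hH]
  rw [hH] at hfin
  nlinarith

end Pool.Agent.Lib.MP_0e0027_nt.Ex
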