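import Pool.Agent.Lib.MP_0e0027_nt.Ex.StmtsW

/-!
W2a: the linear algebra (pigeonhole) step of Stepanov's method.
-/

set_option autoImplicit false

open Finset Polynomial

namespace Pool.Agent.Lib.MP_0e0027_nt.Ex

/-- a nonzero pair of coefficient arrays with vanishing combination -/
private lemma exists_coeffs {F : Type} [Field F] (Q M L L' N : ℕ) (D : F[X])
    (hN : N < M * L + M * L')
    (hdeg : ∀ (A : Fin M → Fin L → F) (B : Fin M → Fin L' → F),
      (D * (∑ j : Fin M, ∑ i : Fin L, C (A j i) * X ^ ((i : ℕ) * Q + j)) +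
        ∑ j : Fin M, ∑ i : Fin L', C (B j i) * X ^ ((i : ℕ) * Q + j)).natDegree < N) :
    ∃ (A : Fin M → Fin L → F) (B : Fin M → Fin L' → F), (A, B) ≠ 0 ∧
      D * (∑ j : Fin M, ∑ i : Fin L, C (A j i) * X ^ ((i : ℕ) * Q + j)) +
        ∑ j : Fin M, ∑ i : Fin L', C (B j i) * X ^ ((i : ℕ) * Q + j) = 0 := by
  let T : ((Fin M → Fin L → F) × (Fin M → Fin L' → F)) →ₗ[F] (Fin N → F) :=
    { toFun := fun AB k ↦ (D * (∑ j : Fin M, ∑ i : Fin L, C (AB.1 j i) * X ^ ((i : ℕ) * Q + j)) +
        ∑ j : Fin M, ∑ i : Fin L', C (AB.2 j i) * X ^ ((i : ℕ) * Q + j)).coeff k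
      map_add' := by
        intro u v
        funext k
        rw [Pi.add_apply, ← coeff_add]
        congr 1
        simp only [Prod.fst_add, Prod.snd_add, Pi.add_apply, C_add, add_mul, sum_add_distrib,
          mul_add]
        ring
      map_smul' := by
        intro r u
        funext k
        rw [RingHom.id_apply, Pi.smul_apply, smul_eq_mul, ← coeff_C_mul]
        congr 1
        simp only [Prod.smul_fst, Prod.smul_snd, Pi.smul_apply, smul_eq_mul, C_mul, mul_assoc,
          ← mul_sum, mul_add]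
        ring }
  have hker : LinearMap.ker T ≠ ⊥ := by
    apply LinearMap.ker_ne_bot_of_finrank_lt
    have h1 : ∀ K : ℕ, Module.finrank F (Fin M → Fin K → F) = M * K := by
      intro K
      rw [Module.finrank_pi_fintype]
      simp only [Module.finrank_fin_fun, sum_const, card_univ, Fintype.card_fin, smul_eq_mul]
    rw [Module.finrank_prod, Module.finrank_fin_fun, h1, h1]
    exact hN
  obtain ⟨⟨A, B⟩, hAB, hne⟩ := (Submodule.ne_bot_iff _).1 hker
  refine ⟨A, B, hne, ?_⟩
  have h0 : ∀ k : Fin N, (D * (∑ j : Fin M, ∑ i : Fin L, C (A j i) * X ^ ((i : ℕ) * Q + j)) +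
        ∑ j : Fin M, ∑ i : Fin L', C (B j i) * X ^ ((i : ℕ) * Q + j)).coeff k = 0 := by
    intro k
    have := LinearMap.mem_ker.1 hAB
    exact congrFun this k
  ext k
  rw [coeff_zero]
  by_cases hk : k < N
  · exact h0 ⟨k, hk⟩
  · exact coeff_eq_zero_of_natDegree_lt (lt_of_lt_of_le (hdeg A B) (not_lt.1 hk))

/-- degree bound for a double sum -/
private lemma natDegree_dsum {F : Type} [Field F] (Q M L E : ℕ) (A : Fin M → Fin L → F)
    (hE : ∀ (j : Fin M) (i : Fin L), (i : ℕ) * Q + j ≤ E) :
    (∑ j : Fin M, ∑ i : Fin L, C (A j i) * X ^ ((i : ℕ) * Q + j)).natDegree ≤ E := by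
  refine natDegree_sum_le_of_forall_le _ _ (fun j _ ↦ ?_)
  refine natDegree_sum_le_of_forall_le _ _ (fun i _ ↦ ?_)
  exact (natDegree_C_mul_X_pow_le _ _).trans (hE j i)

theorem stW2a : StW2a := by
  intro p _ F _ _ _ μ D hp hμ _ hD
  set Q := p ^ μ with hQ
  have hQ3 : 9 * p ≤ Q := by
    calc 9 * p ≤ p ^ 2 * p := Nat.mul_le_mul_right _ (by nlinarith)
      _ = p ^ 3 := by ring
      _ ≤ p ^ μ := Nat.pow_le_pow_right (by omega) hμ
  have hodd : Odd Q := by
    have hpp : p.Prime := Fact.out
    exact (hpp.odd_of_ne_two (by omega)).pow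
  obtain ⟨h, hh⟩ := hodd
  have hh' : (Q - 1) / 2 = h := by omega
  rw [hh']
  have hph : 4 * p ≤ h := by omega
  obtain ⟨l, hl⟩ : ∃ l, h = l + p := ⟨h - p, by omega⟩
  have hlp : h - p = l := by omega
  rw [hlp]
  -- the equations
  obtain ⟨A, B, hne, h0⟩ := exists_coeffs (F := F) Q (h + p + 1) (l + 1) (h + 1)
    (h * Q + h + p + 1) D (by
      rw [hh, hl]
      nlinarith [hph, hl]) (by
      intro A B
      refine lt_of_le_of_lt (natDegree_add_le_of_degree_le (n := h * Q + h + p) ?_ ?_)
        (Nat.lt_succ_self _)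
      · refine natDegree_mul_le.trans ?_
        have h1 := natDegree_dsum (F := F) Q (h + p + 1) (l + 1) (l * Q + (h + p)) A (by
          intro j i
          have := j.2
          have := i.2
          exact Nat.add_le_add (Nat.mul_le_mul_right _ (by omega)) (by omega))
        have h2 : D.natDegree ≤ p * Q := hD.trans (Nat.mul_le_mul_left _ (by omega))
        calc _ ≤ p * Q + (l * Q + (h + p)) := Nat.add_le_add h2 h1
          _ = h * Q + h + p := by rw [hl]; ring
      · exact natDegree_dsum (F := F) Q (h + p + 1) (h + 1) (h * Q + h + p) B (by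
          intro j i
          have := j.2
          have := i.2
          have := Nat.mul_le_mul_right Q (show (i : ℕ) ≤ h by omega)
          omega))
  -- roots of order Q
  have hexp : ExpChar F p := ExpChar.prime Fact.out
  have hsurj : Function.Surjective (fun x : F ↦ x ^ Q) := by
    have : Function.Bijective (iterateFrobenius F p μ) := bijective_iterateFrobenius F p μ
    intro x
    obtain ⟨y, hy⟩ := this.2 x
    exact ⟨y, by simpa [iterateFrobenius_def] using hy⟩
  choose g hg using hsurj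
  have hg' : ∀ x, g x ^ Q = x := hg
  have hg0 : ∀ x, x ≠ 0 → g x ≠ 0 := by
    intro x hx h
    apply hx
    rw [← hg' x, h, zero_pow (by omega)]
  have hQ0 : Q ≠ 0 := by omega
  -- the polynomials
  have key : ∀ (L : ℕ) (Z : Fin (h + p + 1) → Fin L → F),
      ∃ ν : ℕ → F[X], (∀ j, (ν j).natDegree ≤ L - 1) ∧
        (∀ (j : Fin (h + p + 1)) (i : Fin L), Z j i ≠ 0 → ν j ≠ 0) ∧
        (∑ j ∈ range (h + p + 1), ν j ^ Q * X ^ j) =
          ∑ j : Fin (h + p + 1), ∑ i : Fin L, C (Z j i) * X ^ ((i : ℕ) * Q + j) := by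
    intro L Z
    refine ⟨fun j ↦ if hj : j < h + p + 1 then ∑ i : Fin L, C (g (Z ⟨j, hj⟩ i)) * X ^ (i : ℕ)
      else 0, ?_, ?_, ?_⟩
    · intro j
      by_cases hj : j < h + p + 1
      · simp only [hj, dif_pos]
        refine natDegree_sum_le_of_forall_le _ _ (fun i _ ↦ ?_)
        exact (natDegree_C_mul_X_pow_le _ _).trans (by have := i.2; omega)
      · simp only [hj, dif_neg, not_false_iff, natDegree_zero, Nat.zero_le]
    · intro j i hZ hz
      simp only [j.2, dif_pos] at hz
      have hc := congrArg (fun f : F[X] ↦ f.coeff i) hz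
      simp only [finsetSum_coeff, coeff_C_mul, coeff_X_pow, coeff_zero] at hc
      rw [sum_eq_single i] at hc
      · simp only [if_true, mul_one] at hc
        exact hg0 _ hZ hc
      · intro b _ hb
        rw [if_neg (fun h ↦ hb (Fin.ext h.symm)), mul_zero]
      · intro hi
        exact absurd (mem_univ i) hi
    · rw [sum_range]
      refine sum_congr rfl (fun j _ ↦ ?_)
      simp only [j.2, dif_pos]
      rw [hQ, sum_pow_char_pow, sum_mul, ← hQ]
      refine sum_congr rfl (fun i _ ↦ ?_)
      rw [mul_pow, ← C_pow, hg', ← pow_mul, pow_add]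
      ring
  obtain ⟨ν, hν1, hν2, hν3⟩ := key (l + 1) A
  obtain ⟨ν', hν1', hν2', hν3'⟩ := key (h + 1) B
  refine ⟨ν, ν', ?_, hν1, hν1', ?_⟩
  · by_contra hcon
    push Not at hcon
    apply hne
    rw [Prod.mk_eq_zero]
    constructor
    · funext j i
      by_contra hz
      exact hν2 j i hz (hcon j (by have := j.2; omega)).1
    · funext j i
      by_contra hz
      exact hν2' j i hz (hcon j (by have := j.2; omega)).2
  · rw [hν3, hν3']
    exact h0

end Pool.Agent.Lib.MP_0e0027_nt.Ex
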