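import Pool.Agent.Lib.MP_0e0027_nt.Ex.StmtsW

/-!
Module W2b (helper31): the auxiliary polynomial of Stepanov's method is not zero.
-/

set_option autoImplicit false

open Finset Polynomial

namespace Pool.Agent.Lib.MP_0e0027_nt.Ex

namespace W2bAux

variable {F : Type} [Field F]

/-- a squarefree non-constant polynomial is not a constant times a quotient of squares -/
theorem descent (D : F[X]) (e : F) (he : e ≠ 0) (hsq : Squarefree D) (hdeg : 0 < D.natDegree) :
    ∀ d : ℕ, ∀ u w : F[X], u.natDegree ≤ d → u ≠ 0 → D * u ^ 2 ≠ C e * w ^ 2 := by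
  intro d
  induction d using Nat.strong_induction_on with
  | _ d ih =>
    intro u w hd hu heq
    have hD0 : D ≠ 0 := by rintro rfl; simp at hdeg
    have hC : IsUnit (C e) := Polynomial.isUnit_C.mpr he.isUnit
    have h1 : D ∣ w ^ 2 := by
      have : D ∣ C e * w ^ 2 := ⟨u ^ 2, heq.symm⟩
      exact (hC.dvd_mul_left).mp this
    obtain ⟨w', hw'⟩ := (hsq.dvd_pow_iff_dvd two_ne_zero).mp h1
    have h2 : u ^ 2 = C e * D * w' ^ 2 := by
      apply mul_left_cancel₀ hD0
      rw [heq, hw']; ring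
    have h3 : D ∣ u ^ 2 := ⟨C e * w' ^ 2, by rw [h2]; ring⟩
    obtain ⟨u', hu'⟩ := (hsq.dvd_pow_iff_dvd two_ne_zero).mp h3
    have hu'0 : u' ≠ 0 := by rintro rfl; simp at hu'; exact hu hu'
    have h4 : D * u' ^ 2 = C e * w' ^ 2 := by
      apply mul_left_cancel₀ hD0
      calc D * (D * u' ^ 2) = u ^ 2 := by rw [hu']; ring
        _ = D * (C e * w' ^ 2) := by rw [h2]; ring
    have hdu : u.natDegree = D.natDegree + u'.natDegree := by
      rw [hu']; exact natDegree_mul hD0 hu'0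
    exact ih u'.natDegree (by omega) u' w' le_rfl hu'0 h4

/-- the sum from the first nonzero term on -/
theorem sum_split (f : ℕ → F[X]) (Q j0 m : ℕ) (hj : j0 ≤ m) (h0 : ∀ j < j0, f j = 0) :
    ∃ R : F[X], (∑ j ∈ range (m + 1), f j * X ^ (j * Q)) = X ^ (j0 * Q) * (f j0 + X ^ Q * R) := by
  refine ⟨∑ j ∈ Ico (j0 + 1) (m + 1), f j * X ^ ((j - j0 - 1) * Q), ?_⟩
  have h1 : (∑ j ∈ range (m + 1), f j * X ^ (j * Q)) =
      f j0 * X ^ (j0 * Q) + ∑ j ∈ Ico (j0 + 1) (m + 1), f j * X ^ (j * Q) := by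
    rw [Finset.range_eq_Ico, ← Finset.sum_Ico_consecutive _ (Nat.zero_le j0) (by omega : j0 ≤ m + 1),
      Finset.sum_eq_zero (s := Ico 0 j0), zero_add, Finset.sum_eq_sum_Ico_succ_bot (by omega)]
    intro j hj
    rw [h0 j (mem_Ico.mp hj).2, zero_mul]
  rw [h1, mul_add, mul_comm (f j0)]
  congr 1
  rw [← mul_assoc, ← pow_add, Finset.mul_sum]
  apply Finset.sum_congr rfl
  intro j hj
  have hj' := mem_Ico.mp hj
  rw [mul_left_comm, ← pow_add]
  congr 2
  obtain ⟨t, rfl⟩ : ∃ t, j = j0 + 1 + t := ⟨j - (j0 + 1), by omega⟩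
  have : j0 + 1 + t - j0 - 1 = t := by omega
  rw [this]; ring

end W2bAux

open W2bAux in
theorem stW2b : StW2b := by
  intro p hp F _ _ _ μ a c hp3 hμ ha hc ν ν' hex hν hν' hzero
  classical
  set Q := p ^ μ with hQ
  set n := (Q - 1) / 2 with hn
  set v : F[X] := X ^ p - X + C c with hv
  set D : F[X] := v ^ 2 - C (4 * a) with hD
  have hp2 : p ≠ 2 := by omega
  have hodd : Odd p := hp.out.odd_of_ne_two hp2
  have hQodd : Odd Q := hodd.pow
  have h2n : 2 * n + 1 = Q := by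
    obtain ⟨k, hk⟩ := hQodd
    omega
  have hQge : 9 * p ≤ Q := by
    have h1 : p ^ 3 ≤ p ^ μ := Nat.pow_le_pow_right (by omega) hμ
    have h2 : 9 * p ≤ p ^ 3 := by
      have : 9 ≤ p * p := by nlinarith
      calc 9 * p ≤ p * p * p := Nat.mul_le_mul_right p this
        _ = p ^ 3 := by ring
    omega
  have hnp : p ≤ n := by omega
  -- constants
  have h2F : (2 : F) ≠ 0 := by
    have := (CharP.cast_eq_zero_iff F p 2)
    intro h
    have h' : ((2 : ℕ) : F) = 0 := by exact_mod_cast h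
    rw [this] at h'
    exact absurd (Nat.le_of_dvd (by norm_num) h') (by omega)
  have h4a : (4 * a : F) ≠ 0 := by
    have : (4 : F) = 2 * 2 := by norm_num
    rw [this]; exact mul_ne_zero (mul_ne_zero h2F h2F) ha
  -- degree of `v` and `D`
  have hvdeg : v.natDegree = p := by
    rw [hv]
    have h1 : (X ^ p - X + C c : F[X]) = X ^ p + (-X + C c) := by ring
    rw [h1, natDegree_add_eq_left_of_natDegree_lt, natDegree_X_pow]
    rw [natDegree_X_pow]
    calc (-X + C c : F[X]).natDegree ≤ 1 := by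
          apply natDegree_add_le_of_degree_le
          · rw [natDegree_neg]; exact natDegree_X_le
          · rw [natDegree_C]; omega
      _ < p := by omega
  have hDdeg : D.natDegree = 2 * p := by
    rw [hD, sub_eq_add_neg, natDegree_add_eq_left_of_natDegree_lt, natDegree_pow, hvdeg]
    rw [natDegree_neg, natDegree_C, natDegree_pow, hvdeg]; omega
  have hD0 : D ≠ 0 := by
    intro h; rw [h, natDegree_zero] at hDdeg; omega
  have hvder : derivative v = -1 := by
    rw [hv]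
    simp only [derivative_add, derivative_sub, derivative_X_pow, derivative_X, derivative_C,
      CharP.cast_eq_zero, map_zero, zero_mul, add_zero, zero_sub]
  have hDder : derivative D = -(C 2 * v) := by
    rw [hD]
    simp only [derivative_sub, derivative_C, sub_zero, derivative_pow, hvder]
    norm_num
  have hsep : D.Separable := by
    refine ⟨-C ((4 * a)⁻¹), -(C ((4 * a)⁻¹) * C (2⁻¹) * v), ?_⟩
    rw [hDder, hD]
    have e1 : (C ((4 * a)⁻¹) : F[X]) * C (4 * a) = 1 := by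
      rw [← C_mul, inv_mul_cancel₀ h4a, C_1]
    have e2 : (C (2⁻¹ : F) : F[X]) * C 2 = 1 := by
      rw [← C_mul, inv_mul_cancel₀ h2F, C_1]
    linear_combination e1 + C ((4 * a)⁻¹) * v ^ 2 * e2
  -- the least index
  have hex' : ∃ j, ν j ≠ 0 ∨ ν' j ≠ 0 := by
    obtain ⟨j, _, hj⟩ := hex; exact ⟨j, hj⟩
  set j0 := Nat.find hex' with hj0
  have hj0s : ν j0 ≠ 0 ∨ ν' j0 ≠ 0 := Nat.find_spec hex'
  have hj0m : ∀ j < j0, ν j = 0 ∧ ν' j = 0 := by
    intro j hj
    have := Nat.find_min hex' hj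
    push Not at this
    exact this
  have hj0le : j0 ≤ n + p := by
    obtain ⟨j, hj, hj'⟩ := hex
    exact (Nat.find_min' hex' hj').trans hj
  obtain ⟨R, hR⟩ := sum_split ν Q j0 (n + p) hj0le fun j hj => (hj0m j hj).1
  obtain ⟨R', hR'⟩ := sum_split ν' Q j0 (n + p) hj0le fun j hj => (hj0m j hj).2
  rw [hR, hR'] at hzero
  have hX : (X ^ (j0 * Q) : F[X]) ≠ 0 := pow_ne_zero _ X_ne_zero
  have h1 : ν j0 + D ^ n * ν' j0 = X ^ Q * (-(R + D ^ n * R')) := by
    apply mul_left_cancel₀ hX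
    linear_combination hzero
  -- Frobenius
  obtain ⟨E, hE⟩ : ∃ E : F[X], D = C (D.eval 0) + X * E := by
    have : (X : F[X]) ∣ D - C (D.eval 0) := by
      rw [X_dvd_iff]
      simp [coeff_zero_eq_eval_zero]
    obtain ⟨E, hE⟩ := this
    exact ⟨E, by rw [← hE]; ring⟩
  have hDQ : D ^ Q = C (D.eval 0 ^ Q) + X ^ Q * E ^ Q := by
    conv_lhs => rw [hE]
    rw [hQ, add_pow_char_pow, mul_pow, C_pow]
  have hev : D.eval 0 ≠ 0 := by
    rw [hD, hv]
    simp only [eval_sub, eval_pow, eval_add, eval_X, eval_C, zero_pow (by omega : p ≠ 0)]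
    intro h
    exact hc (by linear_combination h)
  have hdvd : X ^ Q ∣ D * ν j0 ^ 2 - C (D.eval 0 ^ Q) * ν' j0 ^ 2 := by
    have e1 : D ^ Q = D * (D ^ n) ^ 2 := by
      rw [← pow_mul, ← pow_succ']; congr 1; omega
    have e2 : D * ν j0 ^ 2 - C (D.eval 0 ^ Q) * ν' j0 ^ 2 =
        X ^ Q * (-(R + D ^ n * R') * (D * (ν j0 - D ^ n * ν' j0)) + E ^ Q * ν' j0 ^ 2) := by
      have e3 : D * ν j0 ^ 2 - D ^ Q * ν' j0 ^ 2 =
          (ν j0 + D ^ n * ν' j0) * (D * (ν j0 - D ^ n * ν' j0)) := by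
        rw [e1]; ring
      rw [h1] at e3
      rw [hDQ] at e3
      linear_combination e3
    rw [e2]; exact dvd_mul_right _ _
  have hfin : D * ν j0 ^ 2 - C (D.eval 0 ^ Q) * ν' j0 ^ 2 = 0 := by
    by_contra hne
    have h2 := natDegree_le_of_dvd hdvd hne
    rw [natDegree_X_pow] at h2
    have d1 : (D * ν j0 ^ 2).natDegree ≤ 2 * n := by
      refine natDegree_mul_le.trans ?_
      have := natDegree_pow_le (p := ν j0) (n := 2)
      have := hν j0
      rw [hDdeg]; omega
    have d2 : (C (D.eval 0 ^ Q) * ν' j0 ^ 2).natDegree ≤ 2 * n := by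
      refine natDegree_mul_le.trans ?_
      have := natDegree_pow_le (p := ν' j0) (n := 2)
      have := hν' j0
      rw [natDegree_C]; omega
    have d3 := natDegree_sub_le (D * ν j0 ^ 2) (C (D.eval 0 ^ Q) * ν' j0 ^ 2)
    have d4 := max_le d1 d2
    omega
  have hfin' : D * ν j0 ^ 2 = C (D.eval 0 ^ Q) * ν' j0 ^ 2 := sub_eq_zero.mp hfin
  have he : D.eval 0 ^ Q ≠ 0 := pow_ne_zero _ hev
  have hν0 : ν j0 ≠ 0 := by
    intro h
    rw [h] at hfin'
    have : C (D.eval 0 ^ Q) * ν' j0 ^ 2 = 0 := by rw [← hfin']; ring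
    rcases mul_eq_zero.mp this with h' | h'
    · exact he (C_eq_zero.mp h')
    · rcases hj0s with h'' | h''
      · exact h'' h
      · exact h'' (pow_eq_zero_iff two_ne_zero |>.mp h')
  exact descent D (D.eval 0 ^ Q) he hsep.squarefree (by omega) _ (ν j0) (ν' j0) le_rfl hν0 hfin'

end Pool.Agent.Lib.MP_0e0027_nt.Ex
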