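import Pool.Agent.Lib.MP_0e0027_nt.Ex.StmtsW

/-!
# W3: bound for Kloosterman sums over large fields of square order
-/

set_option autoImplicit false

open Finset Polynomial

namespace Pool.Agent.Lib.MP_0e0027_nt.Ex

namespace W3Aux

variable {p : ℕ} [Fact p.Prime] {F : Type} [Field F] [Fintype F] [DecidableEq F]
  [Algebra (ZMod p) F]

/-- at most two square roots -/
theorem card_sq_le (t : F) : (univ.filter fun x : F => x ^ 2 = t).card ≤ 2 := by
  by_cases h : ∃ r : F, r ^ 2 = t
  · obtain ⟨r, hr⟩ := h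
    refine (card_le_card (t := {r, -r}) ?_).trans card_le_two
    intro x hx
    rw [mem_filter] at hx
    have h1 : (x - r) * (x + r) = 0 := by
      linear_combination hx.2 - hr
    rcases mul_eq_zero.1 h1 with h | h
    · simp [sub_eq_zero.1 h]
    · simp [eq_neg_of_add_eq_zero_left h]
  · have : (univ.filter fun x : F => x ^ 2 = t) = ∅ := by
      rw [filter_eq_empty_iff]
      intro x _ hx
      exact h ⟨x, hx⟩
    rw [this]
    simp

theorem card_ker (h1 : StW1) :
    p * (univ.filter fun w : F => Algebra.trace (ZMod p) F w = 0).card = Fintype.card F := by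
  have h2 := card_eq_sum_card_fiberwise (s := (univ : Finset F)) (t := (univ : Finset F))
    (f := fun y : F => y ^ p - y) (fun _ _ => mem_coe.2 (mem_univ _))
  rw [card_univ] at h2
  rw [h2, sum_congr rfl fun w _ => h1 p F w, ← sum_filter, sum_const, smul_eq_mul, mul_comm]

theorem exists_c (h1 : StW1) (hc : 3 * p ≤ Fintype.card F) (b : F) (c : ZMod p) :
    ∃ c' : F, Algebra.trace (ZMod p) F c' = c ∧ c' ^ 2 ≠ 4 * b := by
  obtain ⟨c0, hc0⟩ := Algebra.trace_surjective (ZMod p) F c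
  by_contra hcon
  push Not at hcon
  have h2 : (univ.filter fun w : F => Algebra.trace (ZMod p) F w = 0).card ≤
      (univ.filter fun x : F => x ^ 2 = 4 * b).card := by
    refine card_le_card_of_injOn (fun w => c0 + w) ?_ ((add_right_injective c0).injOn)
    intro w hw
    rw [mem_coe, mem_filter] at hw
    rw [mem_coe, mem_filter]
    refine ⟨mem_univ _, hcon _ ?_⟩
    rw [map_add, hc0, hw.2, add_zero]
  have h3 := card_sq_le (4 * b)
  have h4 := card_ker (p := p) (F := F) h1
  have h5 : 0 < p := (Fact.out : p.Prime).pos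
  have h6 : p * (univ.filter fun w : F => Algebra.trace (ZMod p) F w = 0).card ≤ p * 2 :=
    Nat.mul_le_mul_left p (h2.trans h3)
  omega

/-- number of zeros of the discriminant -/
theorem card_zero (h1 : StW1) (b c' : F) :
    (univ.filter fun y : F => Dy p b c' y = 0).card ≤ 2 * p := by
  have h2 := card_eq_sum_card_fiberwise (s := (univ.filter fun y : F => Dy p b c' y = 0))
    (t := (univ.filter fun x : F => x ^ 2 = 4 * b)) (f := fun y : F => y ^ p - y + c') (by
      intro y hy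
      rw [mem_coe, mem_filter] at hy
      rw [mem_coe, mem_filter]
      refine ⟨mem_univ _, ?_⟩
      exact sub_eq_zero.1 hy.2)
  rw [h2]
  have h3 : ∀ t ∈ (univ.filter fun x : F => x ^ 2 = 4 * b),
      ((univ.filter fun y : F => Dy p b c' y = 0).filter fun y => y ^ p - y + c' = t).card ≤ p := by
    intro t _
    have h4 := h1 p F (t - c')
    refine (card_le_card (t := univ.filter fun y : F => y ^ p - y = t - c') ?_).trans ?_
    · intro y hy
      rw [mem_filter] at hy
      rw [mem_filter]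
      exact ⟨mem_univ _, eq_sub_of_add_eq hy.2⟩
    · rw [h4]
      split_ifs
      · exact le_rfl
      · exact Nat.zero_le _
  refine (sum_le_sum h3).trans ?_
  rw [sum_const, smul_eq_mul]
  exact Nat.mul_le_mul_right p (card_sq_le _)

/-- number of solutions of `x + b / x = v` -/
theorem card_x (h2 : (2 : F) ≠ 0) (b v : F) :
    (univ.filter fun x : F => x ≠ 0 ∧ v = x + b * x⁻¹).card ≤
      if v ^ 2 - 4 * b = 0 then 1 else if IsSquare (v ^ 2 - 4 * b) then 2 else 0 := by
  have h3 : (univ.filter fun x : F => x ≠ 0 ∧ v = x + b * x⁻¹).card ≤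
      (univ.filter fun t : F => t ^ 2 = v ^ 2 - 4 * b).card := by
    refine card_le_card_of_injOn (fun x => 2 * x - v) ?_ ?_
    · intro x hx
      rw [mem_coe, mem_filter] at hx
      rw [mem_coe, mem_filter]
      refine ⟨mem_univ _, ?_⟩
      have h4 : v * x = x ^ 2 + b := by
        rw [hx.2.2]
        have := hx.2.1
        field_simp
      show (2 * x - v) ^ 2 = v ^ 2 - 4 * b
      linear_combination -4 * h4
    · intro x _ y _ hxy
      have h5 : 2 * x - v = 2 * y - v := hxy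
      exact mul_left_cancel₀ h2 (sub_left_injective h5)
  refine h3.trans ?_
  split_ifs with h4 h5
  · rw [h4]
    have : (univ.filter fun t : F => t ^ 2 = 0) = {0} := by
      ext t
      simp
    rw [this, card_singleton]
  · exact card_sq_le _
  · rw [Nat.le_zero, card_eq_zero, filter_eq_empty_iff]
    intro t _ ht
    exact h5 ⟨t, by rw [← ht, sq]⟩

/-- the number of `x` with given trace -/
noncomputable def Nc (b : F) (c : ZMod p) : ℕ :=
  (univ.filter fun x : F => x ≠ 0 ∧ Algebra.trace (ZMod p) F (x + b * x⁻¹) = c).card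

theorem Nc_le (h1 : StW1) (h2 : StW2) {μ : ℕ} (hp : 3 ≤ p) (hμ : 3 ≤ μ)
    (hF : Fintype.card F = p ^ (2 * μ)) {b : F} (hb : b ≠ 0) (h20 : (2 : F) ≠ 0) (c : ZMod p) :
    p * Nc b c ≤ p ^ (2 * μ) + 4 * p * p ^ μ + 2 * p := by
  have hcard : 3 * p ≤ Fintype.card F := by
    rw [hF]
    calc 3 * p ≤ p * p := Nat.mul_le_mul_right p hp
      _ = p ^ 2 := (sq p).symm
      _ ≤ p ^ (2 * μ) := Nat.pow_le_pow_right (by omega) (by omega)
  obtain ⟨c', hc', hcb⟩ := exists_c (p := p) h1 hcard b c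
  have e1 : p * Nc b c = ∑ y : F, (univ.filter fun x : F => x ≠ 0 ∧
      y ^ p - y + c' = x + b * x⁻¹).card := by
    unfold Nc
    simp only [card_filter]
    rw [sum_comm, mul_sum]
    refine sum_congr rfl fun x _ => ?_
    by_cases hx : x = 0
    · simp [hx]
    · have h3 := h1 p F (x + b * x⁻¹ - c')
      rw [card_filter] at h3
      have h4 : ∀ y : F, (x ≠ 0 ∧ y ^ p - y + c' = x + b * x⁻¹) ↔
          y ^ p - y = x + b * x⁻¹ - c' := fun y =>
        ⟨fun h => eq_sub_of_add_eq h.2, fun h => ⟨hx, by rw [h, sub_add_cancel]⟩⟩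
      simp only [h4]
      rw [h3]
      have h6 : Algebra.trace (ZMod p) F (x + b * x⁻¹ - c') = 0 ↔
          Algebra.trace (ZMod p) F (x + b * x⁻¹) = c := by
        rw [map_sub, hc', sub_eq_zero]
      by_cases h5 : Algebra.trace (ZMod p) F (x + b * x⁻¹) = c
      · rw [if_pos (h6.2 h5), if_pos ⟨hx, h5⟩, mul_one]
      · rw [if_neg (fun h => h5 (h6.1 h)), if_neg (fun h => h5 h.2), mul_zero]
  rw [e1]
  have e2 : ∀ y : F, (univ.filter fun x : F => x ≠ 0 ∧
      y ^ p - y + c' = x + b * x⁻¹).card ≤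
      (if Dy p b c' y = 0 then 1 else 0) +
        2 * (if Dy p b c' y ≠ 0 ∧ IsSquare (Dy p b c' y) then 1 else 0) := by
    intro y
    refine (card_x h20 b (y ^ p - y + c')).trans ?_
    unfold Dy
    by_cases h3 : (y ^ p - y + c') ^ 2 - 4 * b = 0
    · simp [h3]
    · by_cases h4 : IsSquare ((y ^ p - y + c') ^ 2 - 4 * b)
      · simp [h3, h4]
      · simp [h3, h4]
  refine (sum_le_sum fun y _ => e2 y).trans ?_
  rw [sum_add_distrib, ← mul_sum, ← card_filter, ← card_filter]
  have h3 := card_zero (p := p) h1 b c'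
  have h4 := h2 p F μ b c' hp hμ hF hb hcb
    (univ.filter fun y : F => Dy p b c' y ≠ 0 ∧ IsSquare (Dy p b c' y)) (by
      intro y hy
      rw [mem_filter] at hy
      exact hy.2)
  omega

theorem sum_Nc (b : F) : ∑ c : ZMod p, Nc b c + 1 = Fintype.card F := by
  unfold Nc
  have h1 : ∀ c : ZMod p, (univ.filter fun x : F => x ≠ 0 ∧
      Algebra.trace (ZMod p) F (x + b * x⁻¹) = c).card =
      ((univ.filter fun x : F => x ≠ 0).filter fun x =>
        Algebra.trace (ZMod p) F (x + b * x⁻¹) = c).card := by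
    intro c
    rw [filter_filter]
  rw [sum_congr rfl fun c _ => h1 c, ← card_eq_sum_card_fiberwise (fun _ _ =>
    mem_coe.2 (mem_univ _))]
  have h2 : (univ.filter fun x : F => x ≠ 0) = univ.erase 0 := by
    ext x
    simp
  rw [h2, card_erase_of_mem (mem_univ _), card_univ]
  have : 0 < Fintype.card F := Fintype.card_pos
  omega

theorem KlF_eq (a : ZMod p) : KlF p F a =
    ∑ c : ZMod p, (Nc (algebraMap (ZMod p) F a) c : ℂ) * ZMod.stdAddChar c := by
  unfold KlF Nc
  have h1 : ∀ x : F, (if x = 0 then (0 : ℂ) else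
      ZMod.stdAddChar (Algebra.trace (ZMod p) F (x + algebraMap (ZMod p) F a * x⁻¹))) =
      ∑ c : ZMod p, if x ≠ 0 ∧ Algebra.trace (ZMod p) F (x + algebraMap (ZMod p) F a * x⁻¹) = c
        then ZMod.stdAddChar c else 0 := by
    intro x
    by_cases hx : x = 0
    · simp [hx]
    · simp [hx]
  rw [sum_congr rfl fun x _ => h1 x, sum_comm]
  refine sum_congr rfl fun c _ => ?_
  rw [← sum_filter, sum_const, nsmul_eq_mul]

end W3Aux

open W3Aux in
theorem stW3 (h1 : StW1) (h2 : StW2) : StW3 := by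
  intro p _ F _ _ _ _ μ a hp hμ hF ha
  have hp0 : 0 < p := by omega
  set b : F := algebraMap (ZMod p) F a with hb
  have hb0 : b ≠ 0 := by
    rw [hb]
    exact (_root_.map_ne_zero _).2 ha
  have h20 : (2 : F) ≠ 0 := by
    have h3 : (2 : ZMod p) ≠ 0 := by
      intro h
      have h4 : ((2 : ℕ) : ZMod p) = 0 := by
        push_cast
        exact h
      rw [ZMod.natCast_eq_zero_iff] at h4
      have := Nat.le_of_dvd (by norm_num) h4
      omega
    have h5 : algebraMap (ZMod p) F 2 ≠ 0 := (_root_.map_ne_zero _).2 h3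
    rwa [map_ofNat] at h5
  rw [KlF_eq]
  have hψ : ∑ c : ZMod p, ZMod.stdAddChar c = (0 : ℂ) := by
    refine AddChar.sum_eq_zero_of_ne_one ?_
    intro h
    have h3 : Function.Injective (ZMod.stdAddChar (N := p)) := ZMod.injective_stdAddChar
    have h4 : (1 : ZMod p) = 0 := h3 (by rw [h]; simp)
    exact one_ne_zero h4
  set r : ℝ := (p : ℝ) ^ (2 * μ) / p with hr
  have hpR : (0 : ℝ) < p := by exact_mod_cast hp0
  have e1 : ∑ c : ZMod p, (Nc b c : ℂ) * ZMod.stdAddChar c =
      ∑ c : ZMod p, ((((Nc b c : ℝ) - r : ℝ)) : ℂ) * ZMod.stdAddChar c := by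
    have : ∑ c : ZMod p, ((((Nc b c : ℝ) - r : ℝ)) : ℂ) * ZMod.stdAddChar c =
        ∑ c : ZMod p, (Nc b c : ℂ) * ZMod.stdAddChar c -
          (r : ℂ) * ∑ c : ZMod p, ZMod.stdAddChar c := by
      rw [mul_sum, ← sum_sub_distrib]
      refine sum_congr rfl fun c _ => ?_
      push_cast
      ring
    rw [this, hψ, mul_zero, sub_zero]
  rw [e1]
  refine (norm_sum_le _ _).trans ?_
  set B : ℝ := 4 * (p : ℝ) ^ μ + 2 with hB
  have hB0 : 0 ≤ B := by positivity
  have h3 : ∀ c : ZMod p, (Nc b c : ℝ) - r ≤ B := by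
    intro c
    have h4 := Nc_le h1 h2 hp hμ hF hb0 h20 c
    have h5 : (p : ℝ) * (Nc b c : ℝ) ≤ (p : ℝ) ^ (2 * μ) + 4 * p * (p : ℝ) ^ μ + 2 * p := by
      exact_mod_cast h4
    have h6 : (p : ℝ) * r = (p : ℝ) ^ (2 * μ) := by
      rw [hr]
      field_simp
    have h7 : (p : ℝ) * ((Nc b c : ℝ) - r) ≤ p * B := by
      rw [mul_sub, h6, hB]
      linarith
    exact le_of_mul_le_mul_left h7 hpR
  have h4 : ∑ c : ZMod p, ((Nc b c : ℝ) - r) = -1 := by
    rw [sum_sub_distrib, sum_const, card_univ, ZMod.card, nsmul_eq_mul]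
    have h5 := sum_Nc (p := p) b
    rw [hF] at h5
    have h6 : (∑ c : ZMod p, (Nc b c : ℝ)) + 1 = (p : ℝ) ^ (2 * μ) := by exact_mod_cast h5
    have h7 : (p : ℝ) * r = (p : ℝ) ^ (2 * μ) := by
      rw [hr]
      field_simp
    linarith
  have h5 : ∀ c : ZMod p, ‖((((Nc b c : ℝ) - r : ℝ)) : ℂ) * ZMod.stdAddChar c‖ ≤
      2 * B - ((Nc b c : ℝ) - r) := by
    intro c
    rw [norm_mul, AddChar.norm_apply, mul_one, Complex.norm_real, Real.norm_eq_abs, abs_le]
    have := h3 c
    constructor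
    · linarith
    · linarith
  refine (sum_le_sum fun c _ => h5 c).trans ?_
  rw [sum_sub_distrib, h4, sum_const, card_univ, ZMod.card, nsmul_eq_mul, hB]
  have hQ : (27 : ℝ) ≤ (p : ℝ) ^ μ := by
    have h6 : 3 ^ 3 ≤ p ^ μ := (Nat.pow_le_pow_left hp 3).trans (Nat.pow_le_pow_right hp0 hμ)
    have h7 : ((3 ^ 3 : ℕ) : ℝ) ≤ ((p ^ μ : ℕ) : ℝ) := by exact_mod_cast h6
    push_cast at h7
    linarith
  have hp3 : (3 : ℝ) ≤ p := by exact_mod_cast hp
  have h8 : 3 * (p : ℝ) ≤ (p : ℝ) ^ 2 := by nlinarith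
  have h9 : 3 * (p : ℝ) * (p : ℝ) ^ μ ≤ (p : ℝ) ^ 2 * (p : ℝ) ^ μ :=
    mul_le_mul_of_nonneg_right h8 (by positivity)
  have h10 : (p : ℝ) * 27 ≤ (p : ℝ) * (p : ℝ) ^ μ := mul_le_mul_of_nonneg_left hQ hpR.le
  linarith

end Pool.Agent.Lib.MP_0e0027_nt.Ex
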