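import Pool.Agent.Lib.MP_0e0027_nt.Ex.StmtsW

/-!
W4a: Newton-type identity from unique factorisation of monic polynomials.
-/

set_option autoImplicit false

open Finset Polynomial UniqueFactorizationMonoid

namespace Pool.Agent.Lib.MP_0e0027_nt.Ex

namespace W4aAux

variable {p : ℕ} [Fact p.Prime]

lemma mem_mon {m : ℕ} (f : (ZMod p)[X]) : f ∈ monics p m ↔ f.Monic ∧ f.natDegree = m := by
  classical
  unfold monics
  rw [mem_image]
  constructor
  · rintro ⟨c, -, rfl⟩
    have h := degree_sum_fin_lt c
    refine ⟨monic_X_pow_add h, natDegree_eq_of_degree_eq_some ?_⟩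
    rw [degree_add_eq_left_of_degree_lt (by rw [degree_X_pow]; exact h), degree_X_pow]
  · rintro ⟨h1, h2⟩
    refine ⟨fun i ↦ f.coeff i, mem_univ _, ?_⟩
    conv_rhs => rw [h1.as_sum]
    rw [h2, Finset.sum_range]

lemma Lam_mul (a : ZMod p) {f g : (ZMod p)[X]} (hf : f.Monic) (hg : g.Monic) :
    Lam a (f * g) = Lam a f * Lam a g := by
  unfold Lam
  rw [mul_coeff_zero]
  by_cases h1 : f.coeff 0 = 0
  · simp [h1]
  by_cases h2 : g.coeff 0 = 0
  · simp [h2]
  rw [if_neg (mul_ne_zero h1 h2), if_neg h1, if_neg h2, ← AddChar.map_add_eq_mul]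
  congr 1
  rw [hf.nextCoeff_mul hg, mul_coeff_one]
  field_simp
  ring

lemma Lam_one (a : ZMod p) : Lam a (1 : (ZMod p)[X]) = 1 := by
  unfold Lam
  have h : (1 : (ZMod p)[X]).nextCoeff = 0 := by
    rw [← C_1]
    exact nextCoeff_C_eq_zero 1
  simp [coeff_one, h]

lemma Lam_pow (a : ZMod p) {f : (ZMod p)[X]} (hf : f.Monic) (r : ℕ) :
    Lam a (f ^ r) = Lam a f ^ r := by
  induction r with
  | zero => rw [pow_zero, pow_zero, Lam_one]
  | succ r ih => rw [pow_succ, pow_succ, Lam_mul a (hf.pow r) hf, ih]

open scoped Classical in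
lemma sum_dvd (a : ZMod p) {g : (ZMod p)[X]} (hg : g.Monic) (n : ℕ) :
    ∑ f ∈ (monics p n).filter (fun f ↦ g ∣ f), Lam a f =
      if g.natDegree ≤ n then Lam a g * Asum a (n - g.natDegree) else 0 := by
  classical
  split_ifs with h
  · unfold Asum
    rw [mul_sum]
    symm
    refine sum_bij (fun h _ ↦ g * h) ?_ ?_ ?_ ?_
    · intro u hu
      rw [mem_mon] at hu
      rw [mem_filter, mem_mon]
      refine ⟨⟨hg.mul hu.1, ?_⟩, dvd_mul_right _ _⟩
      rw [hg.natDegree_mul hu.1, hu.2]
      omega
    · intro u hu v hv huv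
      exact mul_left_cancel₀ hg.ne_zero huv
    · intro f hf
      rw [mem_filter, mem_mon] at hf
      obtain ⟨⟨h1, h2⟩, u, rfl⟩ := hf
      have hu : u.Monic := hg.of_mul_monic_left h1
      refine ⟨u, ?_, rfl⟩
      rw [mem_mon]
      refine ⟨hu, ?_⟩
      rw [hg.natDegree_mul hu] at h2
      omega
    · intro u hu
      rw [mem_mon] at hu
      rw [Lam_mul a hg hu.1]
  · apply sum_eq_zero
    intro f hf
    rw [mem_filter, mem_mon] at hf
    exfalso
    apply h
    rw [← hf.1.2]
    exact natDegree_le_of_dvd hf.2 hf.1.1.ne_zero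

open scoped Classical in
lemma count_eq {f : (ZMod p)[X]} (hf : f.Monic) {q : (ZMod p)[X]} (hq : Irreducible q)
    (hm : q.Monic) :
    ((Icc 1 f.natDegree).filter (fun r ↦ q ^ r ∣ f)).card = (normalizedFactors f).count q := by
  classical
  have h1 : ∀ r : ℕ, q ^ r ∣ f ↔ r ≤ (normalizedFactors f).count q := by
    intro r
    have := emultiplicity_eq_count_normalizedFactors hq hf.ne_zero
    rw [hm.normalize_eq_self] at this
    rw [pow_dvd_iff_le_emultiplicity, this]
    exact Nat.cast_le
  have h2 : (normalizedFactors f).count q ≤ f.natDegree := by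
    have h3 := (h1 _).2 le_rfl
    have h4 := natDegree_le_of_dvd h3 hf.ne_zero
    rw [hm.natDegree_pow] at h4
    have h5 : 1 ≤ q.natDegree := hq.natDegree_pos
    nlinarith
  have h3 : (Icc 1 f.natDegree).filter (fun r ↦ q ^ r ∣ f) =
      Icc 1 ((normalizedFactors f).count q) := by
    ext r
    rw [mem_filter, mem_Icc, mem_Icc, h1]
    omega
  rw [h3, Nat.card_Icc]
  omega

open scoped Classical in
lemma degree_eq {f : (ZMod p)[X]} (hf : f.Monic) :
    f.natDegree = ∑ q ∈ (normalizedFactors f).toFinset,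
      (normalizedFactors f).count q * q.natDegree := by
  classical
  have h1 : (normalizedFactors f).prod = f := by
    have := prod_normalizedFactors_eq (a := f) hf.ne_zero
    rw [hf.normalize_eq_self] at this
    exact this
  have h2 : (normalizedFactors f).prod.natDegree =
      ((normalizedFactors f).map natDegree).sum := by
    apply natDegree_multiset_prod_of_monic
    intro q hq
    rw [Polynomial.mem_normalizedFactors_iff hf.ne_zero] at hq
    exact hq.2.1
  rw [h1] at h2
  rw [Finset.sum_multiset_map_count] at h2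
  rw [h2]
  rfl

open scoped Classical in
lemma degree_eq' {f : (ZMod p)[X]} (hf : f.Monic) :
    f.natDegree = ∑ m ∈ Icc 1 f.natDegree,
      ∑ q ∈ (monics p m).filter (fun q ↦ Irreducible q), (normalizedFactors f).count q * m := by
  classical
  have h0 : ∀ m ∈ Icc 1 f.natDegree,
      ∑ q ∈ (monics p m).filter (fun q ↦ Irreducible q), (normalizedFactors f).count q * m =
      ∑ q ∈ (normalizedFactors f).toFinset.filter (fun q ↦ q.natDegree = m),
        (normalizedFactors f).count q * q.natDegree := by
    intro m hm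
    have h1 : (normalizedFactors f).toFinset.filter (fun q ↦ q.natDegree = m) ⊆
        (monics p m).filter (fun q ↦ Irreducible q) := by
      intro q hq
      rw [mem_filter, Multiset.mem_toFinset,
        Polynomial.mem_normalizedFactors_iff hf.ne_zero] at hq
      rw [mem_filter, mem_mon]
      exact ⟨⟨hq.1.2.1, hq.2⟩, hq.1.1⟩
    rw [← sum_subset h1]
    · apply sum_congr rfl
      intro q hq
      rw [(mem_filter.1 hq).2]
    · intro q hq hq2
      rw [mem_filter, mem_mon] at hq
      have : q ∉ normalizedFactors f := by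
        intro h
        apply hq2
        rw [mem_filter, Multiset.mem_toFinset]
        exact ⟨h, hq.1.2⟩
      rw [Multiset.count_eq_zero_of_notMem this, zero_mul]
  rw [sum_congr rfl h0]
  rw [sum_fiberwise_of_maps_to]
  · exact degree_eq hf
  · intro q hq
    rw [Multiset.mem_toFinset, Polynomial.mem_normalizedFactors_iff hf.ne_zero] at hq
    rw [mem_Icc]
    exact ⟨hq.1.natDegree_pos, natDegree_le_of_dvd hq.2.2 hf.ne_zero⟩

open scoped Classical in
lemma nsum {n : ℕ} {f : (ZMod p)[X]} (hf : f ∈ monics p n) :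
    (n : ℂ) = ∑ m ∈ Icc 1 n, ∑ q ∈ (monics p m).filter (fun q ↦ Irreducible q),
      ∑ r ∈ Icc 1 n, if q ^ r ∣ f then (m : ℂ) else 0 := by
  classical
  rw [mem_mon] at hf
  obtain ⟨hf, rfl⟩ := hf
  conv_lhs => rw [degree_eq' hf]
  rw [Nat.cast_sum]
  apply sum_congr rfl
  intro m hm
  rw [Nat.cast_sum]
  apply sum_congr rfl
  intro q hq
  rw [mem_filter, mem_mon] at hq
  rw [← sum_filter, sum_const, count_eq hf hq.2 hq.1.1]
  push_cast
  rw [nsmul_eq_mul]

end W4aAux

open W4aAux in
theorem stW4a : StW4a := by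
  classical
  intro p _ a n hn
  have hL : (n : ℂ) * Asum a n = ∑ m ∈ Icc 1 n, ∑ r ∈ Icc 1 n,
      if r * m ≤ n then ∑ q ∈ (monics p m).filter (fun q ↦ Irreducible q),
        (m : ℂ) * Lam a q ^ r * Asum a (n - r * m) else 0 := by
    calc (n : ℂ) * Asum a n = ∑ f ∈ monics p n, ∑ m ∈ Icc 1 n,
          ∑ q ∈ (monics p m).filter (fun q ↦ Irreducible q),
          ∑ r ∈ Icc 1 n, (if q ^ r ∣ f then (m : ℂ) * Lam a f else 0) := by
          unfold Asum
          rw [mul_sum]
          apply sum_congr rfl
          intro f hf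
          rw [nsum hf, sum_mul]
          apply sum_congr rfl
          intro m _
          rw [sum_mul]
          apply sum_congr rfl
          intro q _
          rw [sum_mul]
          apply sum_congr rfl
          intro r _
          rw [ite_mul, zero_mul]
      _ = ∑ m ∈ Icc 1 n, ∑ q ∈ (monics p m).filter (fun q ↦ Irreducible q),
          ∑ r ∈ Icc 1 n, ∑ f ∈ monics p n, (if q ^ r ∣ f then (m : ℂ) * Lam a f else 0) := by
          rw [sum_comm]
          apply sum_congr rfl
          intro m _
          rw [sum_comm]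
          apply sum_congr rfl
          intro q _
          rw [sum_comm]
      _ = ∑ m ∈ Icc 1 n, ∑ q ∈ (monics p m).filter (fun q ↦ Irreducible q),
          ∑ r ∈ Icc 1 n, (if r * m ≤ n then
            (m : ℂ) * Lam a q ^ r * Asum a (n - r * m) else 0) := by
          apply sum_congr rfl
          intro m _
          apply sum_congr rfl
          intro q hq
          rw [mem_filter, mem_mon] at hq
          apply sum_congr rfl
          intro r _
          have h1 := sum_dvd a (hq.1.1.pow r) n
          rw [hq.1.1.natDegree_pow, hq.1.2, Lam_pow a hq.1.1] at h1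
          rw [← sum_filter, ← mul_sum, h1]
          split_ifs
          · ring
          · rw [mul_zero]
      _ = _ := by
          apply sum_congr rfl
          intro m _
          rw [sum_comm]
          apply sum_congr rfl
          intro r _
          split_ifs
          · rfl
          · exact sum_const_zero
  have hR : ∑ d ∈ Icc 1 n, Kirr a d * Asum a (n - d) = ∑ m ∈ Icc 1 n, ∑ d ∈ Icc 1 n,
      if m ∣ d then ∑ q ∈ (monics p m).filter (fun q ↦ Irreducible q),
        (m : ℂ) * Lam a q ^ (d / m) * Asum a (n - d) else 0 := by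
    rw [sum_comm]
    apply sum_congr rfl
    intro d hd
    rw [mem_Icc] at hd
    rw [← sum_filter]
    have h1 : (Icc 1 n).filter (fun m ↦ m ∣ d) = d.divisors := by
      ext m
      rw [mem_filter, mem_Icc, Nat.mem_divisors]
      constructor
      · rintro ⟨_, h⟩
        exact ⟨h, by omega⟩
      · rintro ⟨h, _⟩
        have := Nat.le_of_dvd (by omega) h
        have := Nat.pos_of_dvd_of_pos h (by omega)
        exact ⟨⟨by omega, by omega⟩, h⟩
    rw [h1]
    unfold Kirr
    rw [sum_mul]
    apply sum_congr rfl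
    intro m _
    rw [sum_mul]
  rw [hL, hR]
  apply sum_congr rfl
  intro m hm
  rw [mem_Icc] at hm
  rw [← sum_filter, ← sum_filter]
  refine sum_bij (fun r _ ↦ r * m) ?_ ?_ ?_ ?_
  · intro r hr
    rw [mem_filter, mem_Icc] at hr
    rw [mem_filter, mem_Icc]
    refine ⟨⟨Nat.mul_pos (by omega) (by omega), hr.2⟩, dvd_mul_left _ _⟩
  · intro r _ s _ h
    exact Nat.eq_of_mul_eq_mul_right (by omega) h
  · intro d hd
    rw [mem_filter, mem_Icc] at hd
    obtain ⟨⟨h1, h2⟩, r, rfl⟩ := hd
    refine ⟨r, ?_, mul_comm _ _⟩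
    rw [mem_filter, mem_Icc]
    have h3 : 1 ≤ r := by
      rcases Nat.eq_zero_or_pos r with h | h
      · subst h
        omega
      · exact h
    refine ⟨⟨h3, ?_⟩, ?_⟩
    · nlinarith
    · rw [mul_comm]
      exact h2
  · intro r hr
    rw [Nat.mul_div_cancel _ (by omega : 0 < m)]

end Pool.Agent.Lib.MP_0e0027_nt.Ex
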