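import Pool.Agent.Lib.MP_0e0027_nt.Ex.StmtsW

/-!
Module W4b: the sums of `Lam` over monic polynomials of given degree.
-/

set_option autoImplicit false

open Finset Polynomial

namespace Pool.Agent.Lib.MP_0e0027_nt.Ex

namespace W4b

variable {p : ℕ} [Fact p.Prime]

/-- the monic polynomial with given lower coefficients -/
noncomputable def mk (m : ℕ) (c : Fin m → ZMod p) : (ZMod p)[X] :=
  X ^ m + ∑ i : Fin m, C (c i) * X ^ (i : ℕ)

theorem coeff_low (m : ℕ) (c : Fin m → ZMod p) (j : ℕ) (hj : j < m) :
    (mk m c).coeff j = c ⟨j, hj⟩ := by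
  unfold mk
  rw [coeff_add, coeff_X_pow, if_neg (by omega), zero_add, finsetSum_coeff]
  rw [Finset.sum_eq_single (⟨j, hj⟩ : Fin m)]
  · simp
  · intro i _ hi
    rw [coeff_C_mul, coeff_X_pow, if_neg, mul_zero]
    intro h
    exact hi (Fin.ext h.symm)
  · intro h
    exact absurd (Finset.mem_univ _) h

theorem coeff_top (m : ℕ) (c : Fin m → ZMod p) : (mk m c).coeff m = 1 := by
  unfold mk
  rw [coeff_add, coeff_X_pow, if_pos rfl, finsetSum_coeff, Finset.sum_eq_zero, add_zero]
  intro i _
  rw [coeff_C_mul, coeff_X_pow, if_neg, mul_zero]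
  have := i.2
  omega

theorem natDegree_mk (m : ℕ) (c : Fin m → ZMod p) : (mk m c).natDegree = m := by
  apply natDegree_eq_of_le_of_coeff_ne_zero
  · rw [natDegree_le_iff_coeff_eq_zero]
    intro N hN
    unfold mk
    rw [coeff_add, coeff_X_pow, if_neg (by omega), finsetSum_coeff, Finset.sum_eq_zero, add_zero]
    intro i _
    rw [coeff_C_mul, coeff_X_pow, if_neg, mul_zero]
    have := i.2
    omega
  · rw [coeff_top]
    exact one_ne_zero

theorem mk_inj (m : ℕ) : Function.Injective (mk (p := p) m) := by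
  intro c d h
  funext i
  have := congrArg (fun f ↦ f.coeff (i : ℕ)) h
  simpa [coeff_low m c i i.2, coeff_low m d i i.2] using this

theorem Asum_eq (a : ZMod p) (m : ℕ) :
    Asum a m = ∑ c : Fin m → ZMod p, Lam a (mk m c) := by
  unfold Asum monics
  rw [Finset.sum_image]
  · rfl
  · intro x _ y _ h
    exact mk_inj m h

theorem nextCoeff_mk (m : ℕ) (hm : 1 ≤ m) (c : Fin m → ZMod p) :
    (mk m c).nextCoeff = c ⟨m - 1, by omega⟩ := by
  rw [nextCoeff_of_natDegree_pos (by rw [natDegree_mk]; omega), natDegree_mk]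
  exact coeff_low m c (m - 1) (by omega)

end W4b

open W4b

theorem stW4b : StW4b := by
  intro p _ a ha
  have hp : p.Prime := Fact.out
  refine ⟨?_, ?_, ?_, ?_⟩
  · rw [Asum_eq]
    have h1 : ∀ c : Fin 0 → ZMod p, W4b.mk 0 c = 1 := fun c ↦ by simp [W4b.mk]
    simp_rw [h1]
    simp [Lam, nextCoeff, coeff_one]
  · rw [Asum_eq]
    rw [← Equiv.sum_comp (Equiv.funUnique (Fin 1) (ZMod p)).symm]
    have h1 : ∀ x : ZMod p, Lam a (mk 1 ((Equiv.funUnique (Fin 1) (ZMod p)).symm x)) =
        if x = 0 then 0 else ZMod.stdAddChar (-x - a * 1 / x) := by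
      intro x
      unfold Lam
      rw [nextCoeff_mk 1 le_rfl, coeff_low 1 _ 0 one_pos, coeff_top]
      rfl
    simp_rw [h1]
    unfold Kl
    rw [← Equiv.sum_comp (Equiv.neg (ZMod p))]
    have h2 : ∀ x : ZMod p, (if (Equiv.neg (ZMod p)) x = 0 then (0 : ℂ) else
        ZMod.stdAddChar (-(Equiv.neg (ZMod p)) x - a * 1 / (Equiv.neg (ZMod p)) x)) =
        if x = 0 then 0 else ZMod.stdAddChar (x + a * x⁻¹) := by
      intro x
      simp only [Equiv.neg_apply, neg_eq_zero, neg_neg]
      by_cases hx : x = 0
      · simp [hx]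
      · rw [if_neg hx, if_neg hx]
        congr 1
        field_simp
        ring
    simp_rw [h2]
    symm
    refine Finset.sum_bij_ne_zero (fun u _ _ ↦ (u : ZMod p)) ?_ ?_ ?_ ?_
    · intro u _ _
      exact Finset.mem_univ _
    · intro u _ _ v _ _ h
      exact Units.ext h
    · intro x _ hx
      have hx0 : x ≠ 0 := by
        intro h
        apply hx
        rw [if_pos h]
      refine ⟨Units.mk0 x hx0, Finset.mem_univ _, ?_, rfl⟩
      rw [if_neg hx0] at hx
      simpa using hx
    · intro u _ _
      rw [if_neg u.ne_zero, one_mul, Units.val_inv_eq_inv_val]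
  · rw [Asum_eq]
    rw [← Equiv.sum_comp (finTwoArrowEquiv (ZMod p)).symm, Fintype.sum_prod_type]
    have h1 : ∀ x y : ZMod p, Lam a (mk 2 ((finTwoArrowEquiv (ZMod p)).symm (x, y))) =
        if x = 0 then 0 else ZMod.stdAddChar (-y - a * y / x) := by
      intro x y
      unfold Lam
      rw [nextCoeff_mk 2 (by norm_num), coeff_low 2 _ 0 (by norm_num),
        coeff_low 2 _ 1 (by norm_num)]
      rfl
    simp_rw [h1]
    rw [Finset.sum_eq_single (-a)]
    · simp_rw [if_neg (neg_ne_zero.mpr ha)]
      have : ∀ y : ZMod p, -y - a * y / -a = 0 := by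
        intro y
        field_simp
        ring
      simp_rw [this]
      simp
    · intro x _ hx
      by_cases hx0 : x = 0
      · simp [hx0]
      · simp_rw [if_neg hx0]
        have h3 : ∀ y : ZMod p, -y - a * y / x = y * (-(1 + a / x)) := by
          intro y
          field_simp
          ring
        simp_rw [h3]
        rw [sum_psi, if_neg]
        intro h0
        apply hx
        have h4 : 1 + a / x = 0 := neg_eq_zero.mp h0
        field_simp at h4
        rw [mul_zero] at h4
        exact eq_neg_of_add_eq_zero_left h4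
    · intro h
      exact absurd (Finset.mem_univ _) h
  · intro m hm
    rw [Asum_eq]
    obtain ⟨t, ht⟩ : ∃ t : ZMod p, (ZMod.stdAddChar (-t) : ℂ) ≠ 1 := by
      by_contra hcon
      push Not at hcon
      have h5 := sum_psi (q := p) (-1)
      have h6 : ∀ x : ZMod p, (ZMod.stdAddChar (x * (-1)) : ℂ) = 1 := by
        intro x
        rw [mul_neg_one]
        exact hcon x
      simp_rw [h6] at h5
      rw [if_neg (neg_ne_zero.mpr one_ne_zero)] at h5
      simp [ZMod.card, hp.ne_zero] at h5
    have hm1 : m - 1 < m := by omega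
    have key : ∀ c : Fin m → ZMod p,
        Lam a (mk m (c + Pi.single (⟨m - 1, hm1⟩ : Fin m) t)) =
          ZMod.stdAddChar (-t) * Lam a (mk m c) := by
      intro c
      unfold Lam
      rw [nextCoeff_mk m (by omega), nextCoeff_mk m (by omega),
        coeff_low m _ 0 (by omega), coeff_low m _ 1 (by omega),
        coeff_low m _ 0 (by omega), coeff_low m _ 1 (by omega)]
      have e0 : (⟨0, by omega⟩ : Fin m) ≠ ⟨m - 1, hm1⟩ := by
        intro h
        have := congrArg Fin.val h
        simp only at this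
        omega
      have e1 : (⟨1, by omega⟩ : Fin m) ≠ ⟨m - 1, hm1⟩ := by
        intro h
        have := congrArg Fin.val h
        simp only at this
        omega
      simp only [Pi.add_apply, Pi.single_eq_of_ne e0, Pi.single_eq_of_ne e1, add_zero,
        Pi.single_eq_same]
      split_ifs with h
      · simp
      · rw [← AddChar.map_add_eq_mul]
        congr 1
        ring
    have hS : ∑ c : Fin m → ZMod p, Lam a (mk m c) =
        ZMod.stdAddChar (-t) * ∑ c : Fin m → ZMod p, Lam a (mk m c) := by
      conv_lhs => rw [← Equiv.sum_comp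
        (Equiv.addRight (Pi.single (⟨m - 1, hm1⟩ : Fin m) t))]
      rw [Finset.mul_sum]
      exact Finset.sum_congr rfl (fun c _ ↦ key c)
    have h7 : (1 - (ZMod.stdAddChar (-t) : ℂ)) *
        ∑ c : Fin m → ZMod p, Lam a (mk m c) = 0 := by
      rw [sub_mul, one_mul, ← hS, sub_self]
    rcases mul_eq_zero.mp h7 with h | h
    · exact absurd (sub_eq_zero.mp h).symm ht
    · exact h

end Pool.Agent.Lib.MP_0e0027_nt.Ex
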