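import Pool.Agent.Lib.MP_0e0027_nt.Ex.StmtsW

/-!
W4c: the sum over irreducible polynomials is the Kloosterman sum of the extension.
-/

set_option autoImplicit false

open Finset Polynomial

namespace Pool.Agent.Lib.MP_0e0027_nt.Ex

namespace W4cAux

section Field
variable {K L : Type} [Field K] [Field L] [Algebra K L] [FiniteDimensional K L]

lemma coeff_zero_ne {x : L} (hx : x ≠ 0) : (minpoly K x).coeff 0 ≠ 0 := by
  intro h
  exact hx ((minpoly.coeff_zero_eq_zero (Algebra.IsIntegral.isIntegral x)).1 h)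

/-- the normalised reverse -/
noncomputable def rv (f : K[X]) : K[X] := C (f.coeff 0)⁻¹ * f.reverse

lemma rv_root {x : L} (hx : x ≠ 0) : aeval x⁻¹ (rv (minpoly K x)) = 0 := by
  haveI : Invertible x := invertibleOfNonzero hx
  have h1 := eval₂_reverse_eq_zero_iff (algebraMap K L) x (minpoly K x)
  rw [invOf_eq_inv] at h1
  unfold rv
  rw [map_mul]
  have h2 : aeval x⁻¹ (minpoly K x).reverse = 0 := by
    rw [aeval_def]
    apply h1.2
    rw [← aeval_def]
    exact minpoly.aeval K x
  rw [h2, mul_zero]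

lemma natDegree_rv {f : K[X]} (h : f.coeff 0 ≠ 0) : (rv f).natDegree = f.natDegree := by
  unfold rv
  rw [natDegree_C_mul (inv_ne_zero h), reverse_natDegree]
  have : f.natTrailingDegree = 0 := by
    rw [natTrailingDegree_eq_zero]
    exact Or.inr h
  omega

lemma monic_rv {f : K[X]} (h : f.coeff 0 ≠ 0) : (rv f).Monic := by
  unfold Polynomial.Monic
  unfold rv
  rw [leadingCoeff_mul, leadingCoeff_C, reverse_leadingCoeff, trailingCoeff]
  have : f.natTrailingDegree = 0 := by
    rw [natTrailingDegree_eq_zero]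
    exact Or.inr h
  rw [this]
  exact inv_mul_cancel₀ h

lemma natDegree_inv_le {x : L} (hx : x ≠ 0) :
    (minpoly K x⁻¹).natDegree ≤ (minpoly K x).natDegree := by
  have h1 := minpoly.dvd K x⁻¹ (rv_root (K := K) hx)
  have h2 := natDegree_le_of_dvd h1 (monic_rv (coeff_zero_ne (K := K) hx)).ne_zero
  rwa [natDegree_rv (coeff_zero_ne (K := K) hx)] at h2

lemma minpoly_inv {x : L} (hx : x ≠ 0) : minpoly K x⁻¹ = rv (minpoly K x) := by
  have h1 := minpoly.dvd K x⁻¹ (rv_root (K := K) hx)
  have h3 := natDegree_inv_le (K := K) (inv_ne_zero hx)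
  rw [inv_inv] at h3
  exact (eq_of_monic_of_dvd_of_natDegree_le
    (minpoly.monic (Algebra.IsIntegral.isIntegral x⁻¹)) (monic_rv (coeff_zero_ne (K := K) hx)) h1
    (by rw [natDegree_rv (coeff_zero_ne (K := K) hx)]; exact h3)).symm

lemma nextCoeff_rv {f : K[X]} (h : f.coeff 0 ≠ 0) (hd : 0 < f.natDegree) :
    (rv f).nextCoeff = f.coeff 1 / f.coeff 0 := by
  rw [nextCoeff_of_natDegree_pos (by rw [natDegree_rv h]; exact hd), natDegree_rv h]
  unfold rv
  rw [coeff_C_mul, coeff_reverse, revAt_le (by omega)]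
  have : f.natDegree - (f.natDegree - 1) = 1 := by omega
  rw [this]
  field_simp

lemma finrank_adj (x : L) :
    Module.finrank (IntermediateField.adjoin K {x}) L * (minpoly K x).natDegree =
      Module.finrank K L := by
  rw [← IntermediateField.adjoin.finrank (Algebra.IsIntegral.isIntegral (R := K) x), mul_comm]
  exact Module.finrank_mul_finrank K (IntermediateField.adjoin K {x}) L

lemma trace_eq (d : ℕ) (hd : Module.finrank K L = d) (x : L) :
    Algebra.trace K L x = ((d / (minpoly K x).natDegree : ℕ) : K) * -(minpoly K x).nextCoeff := by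
  have h := finrank_adj (K := K) x
  have h0 : 0 < (minpoly K x).natDegree :=
    minpoly.natDegree_pos (Algebra.IsIntegral.isIntegral x)
  rw [trace_eq_finrank_mul_minpoly_nextCoeff]
  congr 2
  rw [hd] at h
  rw [← h, Nat.mul_div_cancel _ h0]

end Field

lemma mem_monics {p m : ℕ} [Fact p.Prime] (f : (ZMod p)[X]) :
    f ∈ monics p m ↔ f.Monic ∧ f.natDegree = m := by
  classical
  unfold monics
  rw [mem_image]
  constructor
  · rintro ⟨c, -, rfl⟩
    have h := degree_sum_fin_lt c
    refine ⟨monic_X_pow_add h, natDegree_eq_of_degree_eq_some ?_⟩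
    rw [degree_add_eq_left_of_degree_lt (by rw [degree_X_pow]; exact h), degree_X_pow]
  · rintro ⟨h1, h2⟩
    refine ⟨fun i ↦ f.coeff i, mem_univ _, ?_⟩
    conv_rhs => rw [h1.as_sum]
    rw [h2, Finset.sum_range]

section Count
variable {p : ℕ} [Fact p.Prime] {F : Type} [Field F] [Fintype F] [DecidableEq F] [Algebra (ZMod p) F]

lemma finrank_of_card {d : ℕ} (h : Fintype.card F = p ^ d) : Module.finrank (ZMod p) F = d := by
  have h1 := Module.card_eq_pow_finrank (K := ZMod p) (V := F)
  rw [ZMod.card, h] at h1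
  exact (Nat.pow_right_injective (Fact.out (p := p.Prime)).two_le h1).symm

lemma card_fib {d : ℕ} (h : Fintype.card F = p ^ d) (f : (ZMod p)[X]) (hf : Irreducible f)
    (hm : f.Monic) (hd : f.natDegree ∣ d) :
    (univ.filter (fun x : F ↦ minpoly (ZMod p) x = f)).card = f.natDegree := by
  classical
  have h1 : f ∣ X ^ (p ^ d) - X := by
    have := hf.natDegree_dvd_iff_dvd_X_pow_card_pow_sub_X.1 hd
    rwa [Nat.card_eq_fintype_card, ZMod.card] at this
  have h2 : f.map (algebraMap (ZMod p) F) ∣ X ^ (Fintype.card F) - X := by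
    have := Polynomial.map_dvd (algebraMap (ZMod p) F) h1
    rwa [Polynomial.map_sub, Polynomial.map_pow, Polynomial.map_X, ← h] at this
  have h3 : (X ^ (Fintype.card F) - X : F[X]) ≠ 0 :=
    FiniteField.X_pow_card_sub_X_ne_zero F Fintype.one_lt_card
  have h4 : (X ^ (Fintype.card F) - X : F[X]).roots = univ.val :=
    FiniteField.roots_X_pow_card_sub_X F
  have h5 : (X ^ (Fintype.card F) - X : F[X]).Splits := by
    rw [splits_iff_card_roots, h4, FiniteField.X_pow_card_sub_X_natDegree_eq F Fintype.one_lt_card]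
    rfl
  have h6 : (f.map (algebraMap (ZMod p) F)).Splits := h5.of_dvd h3 h2
  have h7 : (f.map (algebraMap (ZMod p) F)).roots.Nodup := by
    have := roots.le_of_dvd h3 h2
    rw [h4] at this
    exact Multiset.nodup_of_le this univ.nodup
  have h8 : univ.filter (fun x : F ↦ minpoly (ZMod p) x = f) =
      (f.map (algebraMap (ZMod p) F)).roots.toFinset := by
    ext x
    rw [mem_filter, Multiset.mem_toFinset, mem_roots (Polynomial.map_ne_zero hf.ne_zero),
      IsRoot.def, eval_map_algebraMap]
    constructor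
    · rintro ⟨-, rfl⟩
      exact minpoly.aeval _ _
    · intro hx
      exact ⟨mem_univ _, (minpoly.eq_of_irreducible_of_monic hf hx hm).symm⟩
  rw [h8, Multiset.toFinset_card_of_nodup h7, splits_iff_card_roots.1 h6, natDegree_map]

lemma term_eq {d : ℕ} (hd1 : 1 ≤ d) (h : Fintype.card F = p ^ d) (a : ZMod p) (x : F) :
    (if x = 0 then (0 : ℂ) else
      ZMod.stdAddChar (Algebra.trace (ZMod p) F (x + algebraMap (ZMod p) F a * x⁻¹))) =
      Lam a (minpoly (ZMod p) x) ^ (d / (minpoly (ZMod p) x).natDegree) := by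
  have hfr := finrank_of_card (p := p) h
  have hdeg : 0 < (minpoly (ZMod p) x).natDegree :=
    minpoly.natDegree_pos (Algebra.IsIntegral.isIntegral x)
  have hdvd : (minpoly (ZMod p) x).natDegree ∣ d := by
    have := finrank_adj (K := ZMod p) x
    rw [hfr] at this
    exact Dvd.intro_left _ this
  have hk : 0 < d / (minpoly (ZMod p) x).natDegree :=
    Nat.div_pos (Nat.le_of_dvd hd1 hdvd) hdeg
  by_cases hx : x = 0
  · subst hx
    rw [if_pos rfl]
    unfold Lam
    rw [minpoly.zero, coeff_X_zero, if_pos rfl]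
    rw [minpoly.zero] at hk
    rw [zero_pow hk.ne']
  · have h0 := coeff_zero_ne (K := ZMod p) hx
    rw [if_neg hx, Lam, if_neg h0]
    have h1 : Algebra.trace (ZMod p) F (x + algebraMap (ZMod p) F a * x⁻¹) =
        (d / (minpoly (ZMod p) x).natDegree) • (-(minpoly (ZMod p) x).nextCoeff -
          a * (minpoly (ZMod p) x).coeff 1 / (minpoly (ZMod p) x).coeff 0) := by
      rw [← Algebra.smul_def, map_add, map_smul, trace_eq d hfr x, trace_eq d hfr x⁻¹,
        minpoly_inv hx, natDegree_rv h0, nextCoeff_rv h0 hdeg, nsmul_eq_mul, smul_eq_mul]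
      ring
    rw [h1, AddChar.map_nsmul_eq_pow]

end Count

end W4cAux

open W4cAux in
theorem stW4c : StW4c := by
  intro p _ F _ _ _ _ d a hd1 hcard
  classical
  have hfr := finrank_of_card (p := p) hcard
  unfold KlF Kirr
  have h1 : ∀ x ∈ (univ : Finset F), (minpoly (ZMod p) x).natDegree ∈ d.divisors := by
    intro x _
    rw [Nat.mem_divisors]
    refine ⟨?_, by omega⟩
    have := finrank_adj (K := ZMod p) x
    rw [hfr] at this
    exact Dvd.intro_left _ this
  have e1 : (∑ x : F, if x = 0 then (0 : ℂ) else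
      ZMod.stdAddChar (Algebra.trace (ZMod p) F (x + algebraMap (ZMod p) F a * x⁻¹))) =
      ∑ x : F, Lam a (minpoly (ZMod p) x) ^ (d / (minpoly (ZMod p) x).natDegree) :=
    sum_congr rfl (fun x _ ↦ term_eq hd1 hcard a x)
  refine Eq.trans ?_ e1.symm
  rw [← sum_fiberwise_of_maps_to h1]
  apply sum_congr rfl
  intro m hm
  rw [Nat.mem_divisors] at hm
  have h2 : ∀ x ∈ univ.filter (fun x : F ↦ (minpoly (ZMod p) x).natDegree = m),
      minpoly (ZMod p) x ∈ (monics p m).filter (fun f ↦ Irreducible f) := by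
    intro x hx
    rw [mem_filter] at hx
    rw [mem_filter, mem_monics]
    exact ⟨⟨minpoly.monic (Algebra.IsIntegral.isIntegral x), hx.2⟩,
      minpoly.irreducible (Algebra.IsIntegral.isIntegral x)⟩
  rw [← sum_fiberwise_of_maps_to h2]
  apply sum_congr rfl
  intro f hf
  rw [mem_filter, mem_monics] at hf
  obtain ⟨⟨hf1, hf2⟩, hf3⟩ := hf
  have h3 : (univ.filter (fun x : F ↦ (minpoly (ZMod p) x).natDegree = m)).filter
      (fun x ↦ minpoly (ZMod p) x = f) = univ.filter (fun x : F ↦ minpoly (ZMod p) x = f) := by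
    ext x
    simp only [mem_filter, mem_univ, true_and]
    constructor
    · exact fun h ↦ h.2
    · intro h
      exact ⟨by rw [h, hf2], h⟩
  rw [h3]
  have h4 : ∀ x ∈ univ.filter (fun x : F ↦ minpoly (ZMod p) x = f),
      Lam a (minpoly (ZMod p) x) ^ (d / (minpoly (ZMod p) x).natDegree) = Lam a f ^ (d / m) := by
    intro x hx
    rw [mem_filter] at hx
    rw [hx.2, hf2]
  rw [sum_congr rfl h4, sum_const, card_fib hcard f hf3 hf1 (hf2 ▸ hm.1), hf2, nsmul_eq_mul]

end Pool.Agent.Lib.MP_0e0027_nt.Ex
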