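import Pool.Agent.Lib.MP_0e0027_nt.Ex.StmtsW

/-!
Module WF: the Weil bound for Kloosterman sums from W3, W4a, W4b, W4c.
-/

set_option autoImplicit false

open Finset

namespace Pool.Agent.Lib.MP_0e0027_nt.Ex

namespace WF

variable {p : ℕ} [Fact p.Prime]

/-- the Kloosterman sum is real -/
theorem Kl_conj (a : ZMod p) : (starRingEnd ℂ) (Kl (1 : ZMod p) a) = Kl (1 : ZMod p) a := by
  unfold Kl
  rw [map_sum]
  refine Fintype.sum_equiv (Equiv.neg _) _ _ (fun x ↦ ?_)
  rw [conj_psi]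
  congr 1
  simp only [Equiv.neg_apply, Units.val_neg, inv_neg]
  ring

/-- power sums of the two roots -/
theorem rec_pow (K : ℂ) (α β P : ℂ) (hs : α + β = -K) (hp : α * β = P) (s : ℕ → ℂ)
    (h1 : s 1 = -K) (h2 : s 2 = K ^ 2 - 2 * P)
    (h3 : ∀ n, s (n + 3) = -K * s (n + 2) - P * s (n + 1)) :
    ∀ n, s (n + 1) = α ^ (n + 1) + β ^ (n + 1) := by
  have key : ∀ n, s (n + 1) = α ^ (n + 1) + β ^ (n + 1) ∧
      s (n + 2) = α ^ (n + 2) + β ^ (n + 2) := by
    intro n
    induction n with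
    | zero =>
      constructor
      · rw [zero_add, h1, ← hs]; ring
      · rw [zero_add, h2]
        have : K = -(α + β) := by rw [hs]; ring
        rw [this, ← hp]; ring
    | succ n ih =>
      refine ⟨ih.2, ?_⟩
      have : n + 1 + 2 = n + 3 := by ring
      rw [this, h3 n, ih.1, ih.2]
      have hK : K = -(α + β) := by rw [hs]; ring
      rw [hK, ← hp]; ring
  exact fun n ↦ (key n).1

end WF

open WF in
theorem stWeil (h3 : StW3) (ha : StW4a) (hb : StW4b) (hc : StW4c) : StWeil := by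
  classical
  intro p _ u v hp3 hu hv
  set a : ZMod p := u * v with ha_def
  have ha0 : a ≠ 0 := mul_ne_zero hu hv
  -- reduce to `Kl 1 a`
  have hred : Kl u v = Kl (1 : ZMod p) a := by
    have := Kl_unit (1 : ZMod p) a (Units.mk0 u hu)
    rw [← this]
    congr 1
    · simp
    · rw [ha_def]
      simp only [Units.val_inv_eq_inv_val, Units.val_mk0]
      field_simp
  rw [hred]
  set K : ℂ := Kl (1 : ZMod p) a with hK
  obtain ⟨r, hr⟩ : ∃ r : ℝ, K = (r : ℂ) := ⟨K.re, ((Complex.conj_eq_iff_re).1 (Kl_conj a)).symm⟩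
  obtain ⟨hA0, hA1, hA2, hA3⟩ := hb p a ha0
  -- the recurrence
  have hk1 : Kirr a 1 = K := by
    have := ha p a 1 le_rfl
    simp [hA0, hA1] at this
    exact this.symm
  have hk2 : Kirr a 2 = 2 * (p : ℂ) - K ^ 2 := by
    have := ha p a 2 (by norm_num)
    have e : Icc 1 2 = ({1, 2} : Finset ℕ) := by decide
    rw [e, sum_insert (by decide), sum_singleton] at this
    norm_num [hA0, hA1, hA2, hk1] at this
    linear_combination -this
  have hk3 : ∀ n, Kirr a (n + 3) = -K * Kirr a (n + 2) - (p : ℂ) * Kirr a (n + 1) := by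
    intro n
    have := ha p a (n + 3) (by omega)
    rw [hA3 _ (by omega)] at this
    have e : Icc 1 (n + 3) = insert (n + 3) (insert (n + 2) (insert (n + 1) (Icc 1 n))) := by
      ext x; simp only [mem_Icc, mem_insert]; omega
    have hz : ∑ d ∈ Icc 1 n, Kirr a d * Asum a (n + 3 - d) = 0 := by
      refine sum_eq_zero (fun d hd ↦ ?_)
      rw [mem_Icc] at hd
      rw [hA3 _ (by omega), mul_zero]
    rw [e, sum_insert (by simp), sum_insert (by simp), sum_insert (by simp), hz] at this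
    have e0 : n + 3 - (n + 3) = 0 := by omega
    have e1 : n + 3 - (n + 2) = 1 := by omega
    have e2 : n + 3 - (n + 1) = 2 := by omega
    rw [e0, e1, e2, hA0, hA1, hA2] at this
    linear_combination -this
  by_contra hcon
  push Not at hcon
  have hnorm : ‖K‖ = |r| := by rw [hr]; simp
  rw [hnorm] at hcon
  have hp0 : (0 : ℝ) < p := by exact_mod_cast (Fact.out : p.Prime).pos
  have hdisc : 4 * (p : ℝ) < r ^ 2 := by
    have h0 : 0 ≤ 2 * Real.sqrt p := by positivity
    have := mul_self_lt_mul_self h0 hcon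
    rw [abs_mul_abs_self] at this
    have hs := Real.mul_self_sqrt hp0.le
    nlinarith
  set D : ℝ := Real.sqrt (r ^ 2 - 4 * p) with hD
  have hDD : D * D = r ^ 2 - 4 * p := Real.mul_self_sqrt (by linarith)
  set α : ℝ := (-r + D) / 2 with hα
  set β : ℝ := (-r - D) / 2 with hβ
  have hsum : α + β = -r := by rw [hα, hβ]; ring
  have hprod : α * β = p := by rw [hα, hβ]; nlinarith
  have hpow : ∀ n, -Kirr a (n + 1) = (α : ℂ) ^ (n + 1) + (β : ℂ) ^ (n + 1) := by
    refine rec_pow K (α : ℂ) (β : ℂ) (p : ℂ) ?_ ?_ (fun d ↦ -Kirr a d) ?_ ?_ ?_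
    · rw [hr]; exact_mod_cast hsum
    · exact_mod_cast hprod
    · simp [hk1]
    · simp [hk2]
    · intro n
      rw [hk3 n]; ring
  obtain ⟨M, hM, hMle⟩ : ∃ M : ℝ, (p : ℝ) < M ∧ ∀ μ : ℕ, M ^ μ ≤ α ^ (2 * μ) + β ^ (2 * μ) := by
    have h2 : 2 * (p : ℝ) < α ^ 2 + β ^ 2 := by
      have : α ^ 2 + β ^ 2 = r ^ 2 - 2 * p := by
        have : α ^ 2 + β ^ 2 = (α + β) ^ 2 - 2 * (α * β) := by ring
        rw [this, hsum, hprod]; ring
      linarith
    rcases le_total (α ^ 2) (β ^ 2) with hle | hle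
    · refine ⟨β ^ 2, by linarith, fun μ ↦ ?_⟩
      rw [pow_mul, pow_mul]
      have : 0 ≤ (α ^ 2) ^ μ := by positivity
      linarith
    · refine ⟨α ^ 2, by linarith, fun μ ↦ ?_⟩
      rw [pow_mul, pow_mul]
      have : 0 ≤ (β ^ 2) ^ μ := by positivity
      linarith
  -- the upper bound from W3
  have hup : ∀ μ : ℕ, 3 ≤ μ → M ^ μ ≤ 6 * (p : ℝ) ^ 2 * (p : ℝ) ^ μ := by
    intro μ hμ
    haveI : Fintype (GaloisField p (2 * μ)) := Fintype.ofFinite _
    have hcard : Fintype.card (GaloisField p (2 * μ)) = p ^ (2 * μ) := by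
      rw [← Nat.card_eq_fintype_card]
      exact GaloisField.card p (2 * μ) (by omega)
    have hb1 := h3 p (GaloisField p (2 * μ)) μ a hp3 hμ hcard ha0
    rw [← hc p (GaloisField p (2 * μ)) (2 * μ) a (by omega) hcard] at hb1
    have hb2 := hpow (2 * μ - 1)
    have e : 2 * μ - 1 + 1 = 2 * μ := by omega
    rw [e] at hb2
    have hb3 : ‖Kirr a (2 * μ)‖ = α ^ (2 * μ) + β ^ (2 * μ) := by
      rw [← norm_neg, hb2]
      have : (α : ℂ) ^ (2 * μ) + (β : ℂ) ^ (2 * μ) = ((α ^ (2 * μ) + β ^ (2 * μ) : ℝ) : ℂ) := by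
        push_cast; rfl
      rw [this, Complex.norm_real, Real.norm_eq_abs, abs_of_nonneg]
      rw [pow_mul, pow_mul]; positivity
    rw [hb3] at hb1
    exact (hMle μ).trans hb1
  -- contradiction
  have hratio : 1 < M / p := by rw [lt_div_iff₀ hp0]; linarith
  obtain ⟨N, hN⟩ := pow_unbounded_of_one_lt (6 * (p : ℝ) ^ 2) hratio
  have h4 := hup (N + 3) (by omega)
  have h5 : (M / p) ^ (N + 3) ≤ 6 * (p : ℝ) ^ 2 := by
    rw [div_pow, div_le_iff₀ (by positivity)]
    exact h4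
  have h6 : (M / p) ^ N ≤ (M / p) ^ (N + 3) := pow_le_pow_right₀ hratio.le (by omega)
  linarith

end Pool.Agent.Lib.MP_0e0027_nt.Ex
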